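import Mathlib
import Pool.Agent.Helper24_SM.Defs

/-!
# Ramsey-large subgroups and syndetic sets (MP_e6747d_al)

If `S` is Ramsey-large and does not generate `G` then every syndetic set meets the right cosets of
the subgroup generated by `S` in arbitrarily many points.
-/

set_option autoImplicit false

namespace Pool.Agent.Helper83Card

open Helper24SM

section coloring

variable {Q : Type*}

open Classical in
theorem exists_coloring_finite (d : ℕ) (N : Q → Finset Q) (hd : ∀ q, (N q).card ≤ d)
    (hq : ∀ q, q ∉ N q) (n : ℕ) : ∀ S : Finset Q, S.card = n →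
    ∃ c : Q → Fin (2 * d + 1), ∀ q ∈ S, ∀ q' ∈ N q, q' ∈ S → c q ≠ c q' := by
  induction n with
  | zero =>
    intro S hS
    rw [Finset.card_eq_zero] at hS
    subst hS
    exact ⟨fun _ => 0, by simp⟩
  | succ n ih =>
    intro S hS
    -- a vertex of small in-degree
    obtain ⟨v, hv, hdeg⟩ : ∃ v ∈ S, (S.filter fun w => v ∈ N w).card ≤ d := by
      by_contra hcon
      push Not at hcon
      have h1 : ∑ v ∈ S, (S.filter fun w => v ∈ N w).card = ∑ w ∈ S, (S.filter fun v => v ∈ N w).card := by
        simp only [Finset.card_filter]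
        exact Finset.sum_comm
      have h2 : ∑ w ∈ S, (S.filter fun v => v ∈ N w).card ≤ ∑ w ∈ S, d := by
        refine Finset.sum_le_sum fun w _ => le_trans (Finset.card_le_card ?_) (hd w)
        intro v hv
        exact (Finset.mem_filter.1 hv).2
      have h3 : ∑ v ∈ S, (d + 1) ≤ ∑ v ∈ S, (S.filter fun w => v ∈ N w).card :=
        Finset.sum_le_sum fun v hv => hcon v hv
      rw [Finset.sum_const, smul_eq_mul] at h2 h3
      have : S.card * (d + 1) ≤ S.card * d := h3.trans (h1.le.trans h2)
      have hpos : 0 < S.card := by omega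
      have := Nat.le_of_mul_le_mul_left this hpos
      omega
    obtain ⟨c, hc⟩ := ih (S.erase v) (by rw [Finset.card_erase_of_mem hv, hS]; rfl)
    obtain ⟨a, ha⟩ : ∃ a : Fin (2 * d + 1), a ∉ (N v ∪ S.filter fun w => v ∈ N w).image c := by
      by_contra hcon
      push Not at hcon
      have h1 : (Finset.univ : Finset (Fin (2 * d + 1))) ⊆
          (N v ∪ S.filter fun w => v ∈ N w).image c := fun a _ => hcon a
      have h2 := Finset.card_le_card h1
      rw [Finset.card_univ, Fintype.card_fin] at h2
      have h3 := Finset.card_image_le (s := N v ∪ S.filter fun w => v ∈ N w) (f := c)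
      have h4 := Finset.card_union_le (N v) (S.filter fun w => v ∈ N w)
      have h5 := hd v
      omega
    refine ⟨Function.update c v a, ?_⟩
    intro q hqS q' hq' hq'S
    by_cases h1 : q = v
    · subst h1
      have h2 : q' ≠ q := by
        rintro rfl
        exact hq _ hq'
      rw [Function.update_self, Function.update_of_ne h2]
      intro h
      apply ha
      rw [h]
      exact Finset.mem_image_of_mem _ (Finset.mem_union_left _ hq')
    · by_cases h2 : q' = v
      · subst h2
        rw [Function.update_of_ne h1, Function.update_self]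
        intro h
        apply ha
        rw [← h]
        exact Finset.mem_image_of_mem _ (Finset.mem_union_right _ (Finset.mem_filter.2 ⟨hqS, hq'⟩))
      · rw [Function.update_of_ne h1, Function.update_of_ne h2]
        exact hc q (Finset.mem_erase.2 ⟨h1, hqS⟩) q' hq' (Finset.mem_erase.2 ⟨h2, hq'S⟩)

open Classical in
/-- A digraph of out-degree at most `d` has a proper colouring with `2 d + 1` colours. -/
theorem exists_coloring (d : ℕ) (N : Q → Finset Q) (hd : ∀ q, (N q).card ≤ d)
    (hq : ∀ q, q ∉ N q) : ∃ c : Q → Fin (2 * d + 1), ∀ q, ∀ q' ∈ N q, c q ≠ c q' := by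
  let C : Q → Set (Q → Fin (2 * d + 1)) := fun q => {c | ∀ q' ∈ N q, c q ≠ c q'}
  have hC : ∀ q, IsClosed (C q) := by
    intro q
    have : C q = ⋂ q' ∈ N q, {c : Q → Fin (2 * d + 1) | c q ≠ c q'} := by
      ext c
      simp [C]
    rw [this]
    refine isClosed_biInter fun q' _ => ?_
    have h1 : Continuous fun c : Q → Fin (2 * d + 1) => (c q, c q') :=
      (continuous_apply q).prodMk (continuous_apply q')
    exact (isClosed_discrete {p : Fin (2 * d + 1) × Fin (2 * d + 1) | p.1 ≠ p.2}).preimage h1
  obtain ⟨c, -, hc⟩ := isCompact_univ.inter_iInter_nonempty C hC (by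
    intro T
    obtain ⟨c, hc⟩ := exists_coloring_finite d N hd hq _ (T ∪ T.biUnion N) rfl
    refine ⟨c, trivial, ?_⟩
    rw [Set.mem_iInter₂]
    intro q hqT q' hq'
    exact hc q (Finset.mem_union_left _ hqT) q' hq'
      (Finset.mem_union_right _ (Finset.mem_biUnion.2 ⟨q, hqT, hq'⟩)))
  exact ⟨c, fun q q' hq' => (Set.mem_iInter.1 hc q) q' hq'⟩

end coloring

open Classical in
/-- Syndetic sets have large traces on the right cosets of a Ramsey-large subgroup. -/
theorem large_traces {G : Type*} [Group G] {S : Set G} (hS : RamseyLarge S) (n : G)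
    (hn : n ∉ Subgroup.closure S) (N : Set G) (K : Finset G) (hK : ∀ x, ∃ k ∈ K, k * x ∈ N)
    (s : ℕ) : ∃ (F : Finset G) (y : G), F.card = s ∧ (∀ f ∈ F, f ∈ Subgroup.closure S) ∧
      ∀ f ∈ F, f * y ∈ N := by
  set H := Subgroup.closure S with hH
  by_contra hcon
  push Not at hcon
  let r := QuotientGroup.rightRel H
  have hr : ∀ x y : G, (Quotient.mk r x = Quotient.mk r y) ↔ y * x⁻¹ ∈ H := by
    intro x y
    rw [Quotient.eq, QuotientGroup.rightRel_apply]
  -- every class meets `N` in fewer than `s` points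
  have hfin : ∀ t : Finset G, (∀ w ∈ t, w ∈ N) → (∀ w ∈ t, ∀ w' ∈ t,
      Quotient.mk r w = Quotient.mk r w') → t.card ≤ s := by
    intro t ht hcl
    by_contra hlt
    push Not at hlt
    obtain ⟨t', ht', hcard⟩ := Finset.exists_subset_card_eq hlt.le
    have hne : t.Nonempty := Finset.card_pos.1 (by omega)
    obtain ⟨y, hy⟩ := hne
    obtain ⟨f, hf, hf'⟩ := hcon (t'.image fun w => w * y⁻¹) y (by
      rw [Finset.card_image_of_injective _ (mul_left_injective y⁻¹), hcard]) (by
      intro f hf
      obtain ⟨w, hw, rfl⟩ := Finset.mem_image.1 hf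
      exact (hr y w).1 (hcl y hy w (ht' hw)))
    obtain ⟨w, hw, rfl⟩ := Finset.mem_image.1 hf
    apply hf'
    rw [inv_mul_cancel_right]
    exact ht w (ht' hw)
  have hfin2 : ∀ q : Quotient r, {w | w ∈ N ∧ Quotient.mk r w = q}.Finite := by
    intro q
    by_contra hinf
    obtain ⟨t, ht, hcard⟩ := Set.Infinite.exists_subset_card_eq hinf (s + 1)
    have := hfin t (fun w hw => (ht hw).1) (fun w hw w' hw' => (ht hw).2.trans (ht hw').2.symm)
    omega
  let D : Quotient r → Finset G := fun q => (hfin2 q).toFinset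
  have hD : ∀ q w, w ∈ D q ↔ w ∈ N ∧ Quotient.mk r w = q := by
    intro q w
    simp [D]
  let E : Quotient r → Finset (Quotient r) := fun q => (D q).image fun w => Quotient.mk r (n * w)
  have hE1 : ∀ q, (E q).card ≤ s := by
    intro q
    refine Finset.card_image_le.trans (hfin (D q) (fun w hw => ((hD q w).1 hw).1) ?_)
    intro w hw w' hw'
    exact ((hD q w).1 hw).2.trans ((hD q w').1 hw').2.symm
  have hE2 : ∀ q, q ∉ E q := by
    intro q hq
    obtain ⟨w, hw, hw'⟩ := Finset.mem_image.1 hq
    rw [← ((hD q w).1 hw).2, hr] at hw'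
    apply hn
    have : w * (n * w)⁻¹ = n⁻¹ := by group
    rw [this] at hw'
    exact (inv_mem_iff.1 hw')
  obtain ⟨c, hc⟩ := exists_coloring s E hE1 hE2
  obtain ⟨x, hx⟩ := hS (2 * s + 1) (fun g => c (Quotient.mk r g)) (by
    intro g hg y
    have : Quotient.mk r (g * y) = Quotient.mk r y := by
      rw [hr]
      have : y * (g * y)⁻¹ = g⁻¹ := by group
      rw [this]
      exact H.inv_mem (Subgroup.subset_closure hg)
    rw [this]) (K ∪ K.image fun k => n * k)
  obtain ⟨k, hk, hkx⟩ := hK x
  have h1 := hx k (Finset.mem_union_left _ hk) (n * k)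
    (Finset.mem_union_right _ (Finset.mem_image_of_mem _ hk))
  have h2 : Quotient.mk r (n * k * x) ∈ E (Quotient.mk r (k * x)) := by
    refine Finset.mem_image.2 ⟨k * x, (hD _ _).2 ⟨hkx, rfl⟩, ?_⟩
    rw [mul_assoc]
  exact hc _ _ h2 h1

end Pool.Agent.Helper83Card
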