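import Pool.Agent.Helper34_Synd.Sparse
import Pool.Agent.Common_LLL.Basic

/-!
# Two-colourings of a group without monochromatic translates (MP_e6747d_al)
-/

set_option autoImplicit false

open scoped BigOperators

namespace Pool.Agent.Helper83Card

open Pool.Agent.Helper34_Synd Pool.Agent.Common_LLL

theorem nat_mul_pow_le (w : ℕ) : (w : ℝ) * (3 / 4 : ℝ) ^ w ≤ 6 * (7 / 8 : ℝ) ^ w := by
  have h1 : 1 + (w : ℝ) * (1 / 6) ≤ (1 + 1 / 6 : ℝ) ^ w :=
    one_add_mul_le_pow (by norm_num) w
  have h2 : (w : ℝ) ≤ 6 * (7 / 6 : ℝ) ^ w := by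
    have h3 : (1 + 1 / 6 : ℝ) = 7 / 6 := by norm_num
    rw [h3] at h1
    linarith
  have h4 : (7 / 8 : ℝ) ^ w = (7 / 6 : ℝ) ^ w * (3 / 4 : ℝ) ^ w := by
    rw [← mul_pow]
    norm_num
  rw [h4, ← mul_assoc]
  exact mul_le_mul_of_nonneg_right h2 (by positivity)

open Classical in
/-- If `C s` has at least `64 + s` elements for all `s` then there is a set such that no translate
`C s * h` is contained in it or in its complement. -/
theorem two_color {H : Type*} [Group H] (C : ℕ → Finset H) (hC : ∀ s, 64 + s ≤ (C s).card) :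
    ∃ b : Set H, ∀ s h, (∃ f ∈ C s, f * h ∈ b) ∧ ∃ f ∈ C s, f * h ∉ b := by
  let A : ℕ × H → Set (H → Bool) := fun i =>
    {ω | ∃ c : Bool, ∀ v ∈ (C i.1).image (fun f => f * i.2), ω v = c}
  let W : ℕ × H → Finset H := fun i => (C i.1).image fun f => f * i.2
  have hW : ∀ i, (W i).card = (C i.1).card := fun i =>
    Finset.card_image_of_injective _ (mul_left_injective i.2)
  obtain ⟨ω, hω⟩ := lll_compact (V := H) (α := Bool) A W
    (by
      rintro i ω ω' h ⟨c, hc⟩
      exact ⟨c, fun v hv => by rw [← h v hv]; exact hc v hv⟩)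
    (fun i => (3 / 4 : ℝ) ^ (C i.1).card) (1 / 16) (fun i => by positivity)
    (by
      intro i
      have h1 : (3 / 4 : ℝ) ^ (C i.1).card ≤ (3 / 4 : ℝ) ^ 3 :=
        pow_le_pow_of_le_one (by norm_num) (by norm_num) (by have := hC i.1; omega)
      exact h1.trans (by norm_num))
    (by
      intro v J
      obtain ⟨M, hM⟩ : ∃ M, ∀ j ∈ J, j.1 < M :=
        ⟨(J.image Prod.fst).sup id + 1, fun j hj => Nat.lt_succ_of_le
          (Finset.le_sup (f := id) (Finset.mem_image_of_mem Prod.fst hj))⟩
      let T : Finset (ℕ × H) := (Finset.range M).biUnion fun s =>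
        (C s).image fun f => (s, f⁻¹ * v)
      have hsub : J.filter (fun j => v ∈ W j) ⊆ T := by
        intro j hj
        obtain ⟨hj1, hj2⟩ := Finset.mem_filter.1 hj
        obtain ⟨f, hf, hfv⟩ := Finset.mem_image.1 hj2
        refine Finset.mem_biUnion.2 ⟨j.1, Finset.mem_range.2 (hM j hj1), ?_⟩
        refine Finset.mem_image.2 ⟨f, hf, ?_⟩
        rw [← hfv, inv_mul_cancel_left]
      calc ∑ j ∈ J.filter (fun j => v ∈ W j), (3 / 4 : ℝ) ^ (C j.1).card
          ≤ ∑ j ∈ T, (3 / 4 : ℝ) ^ (C j.1).card :=
            Finset.sum_le_sum_of_subset_of_nonneg hsub fun _ _ _ => by positivity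
        _ = ∑ s ∈ Finset.range M, ∑ j ∈ (C s).image (fun f => (s, f⁻¹ * v)),
              (3 / 4 : ℝ) ^ (C j.1).card := by
            rw [Finset.sum_biUnion]
            intro s _ s' _ hss
            rw [Function.onFun, Finset.disjoint_left]
            intro j hj hj'
            obtain ⟨f, -, rfl⟩ := Finset.mem_image.1 hj
            obtain ⟨f', -, h⟩ := Finset.mem_image.1 hj'
            exact hss (congrArg Prod.fst h).symm
        _ = ∑ s ∈ Finset.range M, ((C s).card : ℝ) * (3 / 4 : ℝ) ^ (C s).card := by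
            refine Finset.sum_congr rfl fun s _ => ?_
            rw [Finset.sum_image (by
              intro f _ f' _ h
              have := congrArg Prod.snd h
              simpa using this)]
            dsimp only
            rw [Finset.sum_const, nsmul_eq_mul]
        _ ≤ ∑ s ∈ Finset.range M, 6 * (7 / 8 : ℝ) ^ 64 * (7 / 8 : ℝ) ^ s := by
            refine Finset.sum_le_sum fun s _ => (nat_mul_pow_le _).trans ?_
            rw [mul_assoc, ← pow_add]
            refine mul_le_mul_of_nonneg_left ?_ (by norm_num)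
            exact pow_le_pow_of_le_one (by norm_num) (by norm_num) (hC s)
        _ = 6 * (7 / 8 : ℝ) ^ 64 * ∑ s ∈ Finset.range M, (7 / 8 : ℝ) ^ s := by
            rw [Finset.mul_sum]
        _ ≤ 6 * (7 / 8 : ℝ) ^ 64 * 8 := by
            refine mul_le_mul_of_nonneg_left ?_ (by positivity)
            rw [geom_sum_eq (by norm_num)]
            have : (0 : ℝ) ≤ (7 / 8 : ℝ) ^ M := by positivity
            rw [div_le_iff_of_neg (by norm_num)]
            linarith
        _ ≤ 1 / 16 := by norm_num)
    (by
      intro i V' hV' e he B hB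
      set w := (C i.1).card with hw
      have hw64 : 64 ≤ w := by have := hC i.1; omega
      let Z : Finset V' := Finset.univ.filter fun v => (v : H) ∈ W i
      have hZ : Z.card = w := by
        rw [hw, ← hW i]; exact card_filter_subtype' V' (W i) hV'
      have h1 : B ⊆ (Finset.univ.filter fun f : V' → Bool => ∀ v ∈ Z, f v = true) ∪
          (Finset.univ.filter fun f : V' → Bool => ∀ v ∈ Z, f v = false) := by
        intro f hf
        obtain ⟨c, hc⟩ := (hB f).1 hf
        have hc' : ∀ v ∈ Z, f v = c := by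
          intro v hv
          have := hc v (Finset.mem_filter.1 hv).2
          rwa [he f v v.2] at this
        cases c with
        | true => exact Finset.mem_union_left _ (Finset.mem_filter.2 ⟨Finset.mem_univ _, hc'⟩)
        | false => exact Finset.mem_union_right _ (Finset.mem_filter.2 ⟨Finset.mem_univ _, hc'⟩)
      have h2 : ∀ c : Bool, ((Finset.univ.filter fun f : V' → Bool => ∀ v ∈ Z, f v = c).card : ℝ) =
          2 ^ V'.card / 2 ^ w := by
        intro c
        have h3 := card_const_on (α := Bool) Z c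
        rw [Fintype.card_bool, hZ, Fintype.card_coe] at h3
        rw [eq_div_iff (by positivity)]
        exact_mod_cast h3
      have h4 : (B.card : ℝ) ≤ 2 * (2 ^ V'.card / 2 ^ w) := by
        have h5 := (Finset.card_le_card h1).trans (Finset.card_union_le _ _)
        have h6 : (B.card : ℝ) ≤ ((Finset.univ.filter fun f : V' → Bool =>
            ∀ v ∈ Z, f v = true).card : ℝ) +
            ((Finset.univ.filter fun f : V' → Bool => ∀ v ∈ Z, f v = false).card : ℝ) := by
          exact_mod_cast h5
        rw [h2, h2] at h6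
        linarith
      rw [hW i, Fintype.card_bool]
      refine h4.trans ?_
      push_cast
      have h7 : (2 : ℝ) * (1 / 2) ^ w ≤ (3 / 4 : ℝ) ^ w * Real.exp (-(2 * (1 / 16) * w)) := by
        have h8 : Real.exp (-(2 * (1 / 16) * w)) = Real.exp (-(1 / 8)) ^ w := by
          rw [← Real.exp_nat_mul]
          congr 1
          ring
        rw [h8, ← mul_pow]
        have h9 : (7 / 8 : ℝ) ≤ Real.exp (-(1 / 8)) := by
          have := Real.add_one_le_exp (-(1 / 8) : ℝ)
          linarith
        have h10 : (21 / 32 : ℝ) ^ w ≤ (3 / 4 * Real.exp (-(1 / 8))) ^ w :=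
          pow_le_pow_left₀ (by norm_num) (by linarith) w
        refine le_trans ?_ h10
        have h11 : (21 / 32 : ℝ) ^ w = (21 / 16 : ℝ) ^ w * (1 / 2) ^ w := by
          rw [← mul_pow]
          norm_num
        rw [h11]
        refine mul_le_mul_of_nonneg_right ?_ (by positivity)
        have h12 : 1 + (w : ℝ) * (5 / 16) ≤ (1 + 5 / 16 : ℝ) ^ w :=
          one_add_mul_le_pow (by norm_num) w
        have h13 : (1 + 5 / 16 : ℝ) = 21 / 16 := by norm_num
        rw [h13] at h12
        have h14 : (64 : ℝ) ≤ w := by exact_mod_cast hw64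
        linarith
      calc (2 : ℝ) * (2 ^ V'.card / 2 ^ w) = 2 * (1 / 2) ^ w * 2 ^ V'.card := by
            rw [one_div, inv_pow]
            ring
        _ ≤ _ := mul_le_mul_of_nonneg_right h7 (by positivity))
  refine ⟨{v | ω v = true}, fun s h => ⟨?_, ?_⟩⟩
  · by_contra hcon
    push Not at hcon
    apply hω (s, h)
    refine ⟨false, fun v hv => ?_⟩
    obtain ⟨f, hf, rfl⟩ := Finset.mem_image.1 hv
    exact Bool.eq_false_of_not_eq_true (hcon f hf)
  · by_contra hcon
    push Not at hcon
    apply hω (s, h)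
    refine ⟨true, fun v hv => ?_⟩
    obtain ⟨f, hf, rfl⟩ := Finset.mem_image.1 hv
    exact hcon f hf

end Pool.Agent.Helper83Card
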