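import Pool.Agent.Helper83_Card.Color
import Pool.Agent.Helper83_Card.TwoColor
import Pool.Agent.Helper56_Tow.Tower
import Pool.Agent.Helper24_SM.Main

/-!
# Groups of cardinality less than the covering number of the meager ideal (MP_e6747d_al)
-/

set_option autoImplicit false

open scoped Cardinal

namespace Pool.Agent.Helper83Card

open Helper24SM

/-- The real line is not the union of `|I|` meager sets: every family of dense open subsets of the
Baire space indexed by `I` has a common point. -/
def CovMeager (I : Type*) : Prop :=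
  ∀ D : I → Set (ℕ → ℕ), (∀ i, IsOpen (D i) ∧ Dense (D i)) → (⋂ i, D i).Nonempty

theorem countable_closure {G : Type*} [Group G] {S : Set G} (hS : S.Countable) :
    Countable (Subgroup.closure S) := by
  have : Countable S := hS.to_subtype
  have h1 : Countable (FreeGroup S) := inferInstanceAs (Countable (Quot _))
  have h2 : (FreeGroup.lift (Subtype.val : S → G)).range = Subgroup.closure S := by
    rw [FreeGroup.range_lift_eq_closure, Subtype.range_coe]
  rw [← h2]
  exact (MonoidHom.rangeRestrict_surjective _).countable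

section flow

attribute [local instance] Ultrafilter.mul Ultrafilter.semigroup

variable {G : Type*} [Group G]

theorem pure_mul_pure' (g h : G) : (pure g * pure h : Ultrafilter G) = pure (g * h) := by
  apply Ultrafilter.coe_inj.mp
  apply Filter.ext'
  intro p
  rw [Ultrafilter.eventually_mul]
  simp

theorem pure_one_mul (p : Ultrafilter G) : (pure 1 * p : Ultrafilter G) = p := by
  apply Ultrafilter.coe_inj.mp
  apply Filter.ext'
  intro r
  rw [Ultrafilter.eventually_mul]
  simp

theorem mem_pure_mul (g : G) (p : Ultrafilter G) (A : Set G) :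
    A ∈ (pure g * p : Ultrafilter G) ↔ {x | g * x ∈ A} ∈ p := by
  show (∀ᶠ x in ((pure g * p : Ultrafilter G) : Filter G), x ∈ A) ↔ _
  rw [Ultrafilter.eventually_mul]
  simp only [Ultrafilter.coe_pure, Filter.eventually_pure]
  rfl

/-- A minimal left ideal as a flow. -/
def Flow (L : Set (Ultrafilter G)) : Type _ := L

instance (L : Set (Ultrafilter G)) : TopologicalSpace (Flow L) :=
  inferInstanceAs (TopologicalSpace L)

instance (L : Set (Ultrafilter G)) : T2Space (Flow L) := inferInstanceAs (T2Space L)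

/-- The action on a left ideal. -/
@[instance_reducible]
def flowAct {L : Set (Ultrafilter G)} (hL : IsCLI L) : MulAction G (Flow L) where
  smul g x := ⟨pure g * x.1, hL.2.2 _ _ x.2⟩
  one_smul x := Subtype.ext (pure_one_mul x.1)
  mul_smul g h x := by
    apply Subtype.ext
    show pure (g * h) * x.1 = pure g * (pure h * x.1)
    rw [← mul_assoc, pure_mul_pure']

omit [Group G] in
theorem isOpen_basic (L : Set (Ultrafilter G)) (A : Set G) : IsOpen {x : Flow L | A ∈ x.1} :=
  (ultrafilter_isOpen_basic A).preimage continuous_subtype_val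

omit [Group G] in
theorem exists_basic (L : Set (Ultrafilter G)) (U : Set (Flow L)) (hU : IsOpen U)
    (x : Flow L) (hx : x ∈ U) : ∃ A : Set G, A ∈ x.1 ∧ ∀ y : Flow L, A ∈ y.1 → y ∈ U := by
  obtain ⟨V, hV, rfl⟩ := isOpen_induced_iff.1 hU
  obtain ⟨_, ⟨A, rfl⟩, hA1, hA2⟩ := (ultrafilterBasis_is_basis (α := G)).exists_subset_of_mem_open
    (show x.1 ∈ V from hx) hV
  exact ⟨A, hA1, fun y hy => hA2 hy⟩

theorem continuousConstSMul_flow {L : Set (Ultrafilter G)} (hL : IsCLI L) :
    let _ := flowAct hL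
    ContinuousConstSMul G (Flow L) := by
  intro _
  refine ⟨fun g => ?_⟩
  have h1 : Continuous fun p : Ultrafilter G => (pure g * p : Ultrafilter G) := by
    refine ultrafilterBasis_is_basis.continuous_iff.2 (Set.forall_mem_range.mpr fun A => ?_)
    have : (fun p : Ultrafilter G => (pure g * p : Ultrafilter G)) ⁻¹' {u | A ∈ u} =
        {p | {x | g * x ∈ A} ∈ p} := by
      ext p
      exact mem_pure_mul g p A
    rw [this]
    exact ultrafilter_isOpen_basic _
  exact Continuous.subtype_mk (h1.comp continuous_subtype_val) _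

theorem isMinimal_flow {L : Set (Ultrafilter G)} (hL : IsCLI L)
    (hmin : ∀ L', IsCLI L' → L' ⊆ L → L' = L) :
    let _ := flowAct hL
    MulAction.IsMinimal G (Flow L) := by
  intro _
  refine ⟨fun x => ?_⟩
  rw [dense_iff_inter_open]
  intro U hU hne
  obtain ⟨y, hy⟩ := hne
  obtain ⟨A, hA1, hA2⟩ := exists_basic L U hU y hy
  have hcl : IsCLI (Set.range fun q : Ultrafilter G => q * x.1) := by
    refine ⟨(isCompact_range (Ultrafilter.continuous_mul_left x.1)).isClosed,
      ⟨_, ⟨pure 1, rfl⟩⟩, ?_⟩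
    rintro r _ ⟨q, rfl⟩
    exact ⟨r * q, by simp only [mul_assoc]⟩
  have hLL := hmin _ hcl (by
    rintro _ ⟨q, rfl⟩
    exact hL.2.2 q _ x.2)
  have hy2 : y.1 ∈ Set.range fun q : Ultrafilter G => q * x.1 := by
    rw [hLL]
    exact y.2
  obtain ⟨q, hq⟩ := hy2
  have hq' : A ∈ (q * x.1 : Ultrafilter G) := by
    rw [show q * x.1 = y.1 from hq]
    exact hA1
  have h3 : ∀ᶠ g in (q : Filter G), ∀ᶠ z in ((x.1 : Ultrafilter G) : Filter G), g * z ∈ A :=
    (Ultrafilter.eventually_mul q x.1 (fun z => z ∈ A)).1 hq'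
  obtain ⟨g, hg⟩ := h3.exists
  have hg' : A ∈ (pure g * x.1 : Ultrafilter G) := (mem_pure_mul g x.1 A).2 hg
  exact ⟨g • x, hA2 _ hg', ⟨g, rfl⟩⟩

open Classical in
/-- The density of the universal minimal flow. -/
theorem exists_open_not_contains [Infinite G] {L : Set (Ultrafilter G)} (hL : IsCLI L)
    (hmin : ∀ L', IsCLI L' → L' ⊆ L → L' = L) {S : Set G} (hSc : S.Countable)
    (hS : RamseyLarge S) (n : G) (hn : n ∉ Subgroup.closure S) (hcov : CovMeager G)
    (B : G → Set (Flow L)) (hB : ∀ g, IsOpen (B g) ∧ (B g).Nonempty) :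
    ∃ O : Set (Flow L), IsOpen O ∧ O.Nonempty ∧ ∀ g, ¬ B g ⊆ O := by
  let _ := flowAct hL
  have _ := continuousConstSMul_flow hL
  have _ := isMinimal_flow hL hmin
  have hcomp : CompactSpace (Flow L) := isCompact_iff_compactSpace.1 hL.1.isCompact
  set H := Subgroup.closure S with hH
  have hHc : Countable H := countable_closure hSc
  obtain ⟨p, hp⟩ := hL.2.1
  let x₀ : Flow L := ⟨p, hp⟩
  let N : G → Set G := fun g => {x | x • x₀ ∈ B g}
  -- the sets of return times are syndetic
  have hN : ∀ g, ∃ K : Finset G, ∀ x, ∃ k ∈ K, k * x ∈ N g := by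
    intro g
    obtain ⟨I, hI⟩ := isCompact_univ.exists_finite_cover_smul G (hB g).1 (hB g).2
    refine ⟨I.image fun k => k⁻¹, fun x => ?_⟩
    obtain ⟨k, hk, hk'⟩ := Set.mem_iUnion₂.1 (hI (Set.mem_univ (x • x₀)))
    refine ⟨k⁻¹, Finset.mem_image_of_mem _ hk, ?_⟩
    show (k⁻¹ * x) • x₀ ∈ B g
    rw [mul_smul]
    exact Set.mem_smul_set_iff_inv_smul_mem.1 hk'
  have hlarge : ∀ (g : G) (s : ℕ), ∃ (F : Finset H) (y : G), F.card = s ∧
      ∀ f ∈ F, (f : G) * y ∈ N g := by
    intro g s
    obtain ⟨K, hK⟩ := hN g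
    obtain ⟨F, y, h1, h2, h3⟩ := large_traces hS n hn (N g) K hK s
    refine ⟨F.subtype fun f => f ∈ H, y, ?_, ?_⟩
    · rw [Finset.card_subtype, ← h1]
      congr 1
      exact Finset.filter_true_of_mem h2
    · intro f hf
      exact h3 _ (Finset.mem_subtype.1 hf)
  -- the Cohen real
  obtain ⟨e, he⟩ := exists_surjective_nat (Finset H)
  choose R hR' using fun s : ℕ => hlarge 1 (64 + s)
  have hR : ∀ s, (R s).card = 64 + s := by
    intro s
    obtain ⟨y, h1, -⟩ := hR' s
    exact h1
  let C : (ℕ → ℕ) → ℕ → Finset H := fun r s =>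
    if 64 + s ≤ (e (r s)).card then e (r s) else R s
  have hC : ∀ r s, 64 + s ≤ (C r s).card := by
    intro r s
    simp only [C]
    split_ifs with h
    · exact h
    · rw [hR]
  obtain ⟨r, hr⟩ := hcov (fun g => {r | ∃ s y, ∀ f ∈ C r s, (f : G) * y ∈ N g}) (by
    intro g
    constructor
    · rw [isOpen_iff_forall_mem_open]
      rintro r ⟨s, y, hf⟩
      refine ⟨{r' | r' s = r s}, ?_, ?_, rfl⟩
      · intro r' hr'
        refine ⟨s, y, ?_⟩
        have : C r' s = C r s := by
          simp only [C]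
          rw [show r' s = r s from hr']
        rw [this]
        exact hf
      · exact (isOpen_discrete ({r s} : Set ℕ)).preimage (continuous_apply (A := fun _ : ℕ => ℕ) s)
    · rw [dense_iff_inter_open]
      intro U hU hne
      obtain ⟨r, hrU⟩ := hne
      obtain ⟨I, u, hu1, hu2⟩ := isOpen_pi_iff.1 hU r hrU
      obtain ⟨s, hs⟩ := Infinite.exists_notMem_finset I
      obtain ⟨F, y, hF1, hF2⟩ := hlarge g (64 + s)
      obtain ⟨m, hm⟩ := he F
      refine ⟨Function.update r s m, hu2 ?_, s, y, ?_⟩
      · intro i hi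
        have : i ≠ s := by
          rintro rfl
          exact hs hi
        rw [Function.update_of_ne this]
        exact (hu1 i hi).2
      · have : C (Function.update r s m) s = F := by
          simp only [C]
          rw [Function.update_self, hm, if_pos hF1.ge]
        rw [this]
        exact hF2)
  rw [Set.mem_iInter] at hr
  -- the two-colouring
  obtain ⟨b, hb⟩ := two_color (C r) (hC r)
  obtain ⟨t, ht1, ht2⟩ := exists_reps H
  let b' : Set G := {x | (⟨x * (t x)⁻¹, ht1 x⟩ : H) ∈ b}
  have hb'mem : ∀ (f : H) (x : G), (f : G) * x ∈ b' ↔ f * ⟨x * (t x)⁻¹, ht1 x⟩ ∈ b := by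
    intro f x
    show (⟨(f : G) * x * (t ((f : G) * x))⁻¹, ht1 _⟩ : H) ∈ b ↔ _
    have : (⟨(f : G) * x * (t ((f : G) * x))⁻¹, ht1 _⟩ : H) = f * ⟨x * (t x)⁻¹, ht1 x⟩ := by
      apply Subtype.ext
      show (f : G) * x * (t ((f : G) * x))⁻¹ = (f : G) * (x * (t x)⁻¹)
      rw [ht2 f f.2 x, mul_assoc]
    rw [this]
  refine ⟨{x | b' ∈ x.1}, isOpen_basic L b', ?_, fun g hg => ?_⟩
  · -- nonempty
    have h1 : (⋃ f ∈ (C r 0 : Finset H), {x : G | (f : G) * x ∈ b'}) ∈ p := by
      have : (⋃ f ∈ (C r 0 : Finset H), {x : G | (f : G) * x ∈ b'}) = Set.univ := by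
        rw [Set.eq_univ_iff_forall]
        intro x
        obtain ⟨f, hf, hf'⟩ := (hb 0 ⟨x * (t x)⁻¹, ht1 x⟩).1
        exact Set.mem_iUnion₂.2 ⟨f, hf, (hb'mem f x).2 hf'⟩
      rw [this]
      exact Filter.univ_mem
    obtain ⟨f, -, hf⟩ := (Ultrafilter.finite_biUnion_mem_iff (C r 0).finite_toSet).1 h1
    exact ⟨(f : G) • x₀, (mem_pure_mul (f : G) p b').2 hf⟩
  · -- no `B g` is contained
    obtain ⟨s, y, hsy⟩ := hr g
    have h1 : ∀ f ∈ C r s, {x : G | (f : G) * y * x ∈ b'} ∈ p := by
      intro f hf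
      have h2 : ((f : G) * y) • x₀ ∈ B g := hsy f hf
      have h3 : b' ∈ (pure ((f : G) * y) * p : Ultrafilter G) := hg h2
      exact (mem_pure_mul _ _ _).1 h3
    have h2 : (⋂ f ∈ C r s, {x : G | (f : G) * y * x ∈ b'}) ∈ p :=
      (Filter.biInter_finset_mem _).2 h1
    obtain ⟨x, hx⟩ := p.neBot.nonempty_of_mem h2
    obtain ⟨f, hf, hf'⟩ := (hb s ⟨y * x * (t (y * x))⁻¹, ht1 (y * x)⟩).2
    apply hf'
    rw [← hb'mem, ← mul_assoc]
    exact Set.mem_iInter₂.1 hx f hf

end flow

/-- An infinite group of cardinality less than the covering number of the meager ideal which has a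
countable Ramsey-large subset (that does not generate the group) is good. -/
theorem good_of_covMeager {G : Type*} [Group G] [Infinite G] {S : Set G} (hSc : S.Countable)
    (hS : RamseyLarge S) (n : G) (hn : n ∉ Subgroup.closure S) (hcov : CovMeager G) :
    Pool.Agent.Helper34_Synd.Good G := by
  obtain ⟨L, hL, hmin⟩ := exists_minimal_cli (G := G)
  let _ := flowAct hL
  have _ := continuousConstSMul_flow hL
  have _ := isMinimal_flow hL hmin
  have hcomp : CompactSpace (Flow L) := isCompact_iff_compactSpace.1 hL.1.isCompact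
  have hne : Nonempty (Flow L) := ⟨⟨hL.2.1.some, hL.2.1.some_mem⟩⟩
  exact Pool.Agent.Helper56_Tow.good_of_piWeight
    (exists_open_not_contains hL hmin hSc hS n hn hcov)

/-- Every group of cardinality `ℵ₁` has a left-invariant syndetic submeasure, if the real line is
not the union of `ℵ₁` meager sets. -/
theorem aleph_one {G : Type*} [Group G] (hG : #G = ℵ₁) (hcov : CovMeager G) :
    Pool.Agent.Helper34_Synd.HasSyndeticSubmeasure G := by
  have hinf : Infinite G := by
    rw [Cardinal.infinite_iff, hG]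
    exact Cardinal.aleph0_le_aleph 1
  by_cases h : ∀ S : Set G, #S < #G → ¬ RamseyLarge S
  · exact main h
  · push Not at h
    obtain ⟨S, hS1, hS2⟩ := h
    have hSc : S.Countable := by
      rw [← Set.countable_coe_iff, ← Cardinal.mk_le_aleph0_iff]
      rw [hG] at hS1
      rw [← Order.lt_succ_iff, Cardinal.succ_aleph0]
      exact hS1
    obtain ⟨n, hn⟩ : ∃ n : G, n ∉ Subgroup.closure S := by
      by_contra hcon
      push Not at hcon
      have h1 : Countable (Subgroup.closure S) := countable_closure hSc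
      have h2 : Countable G := by
        refine Function.Injective.countable (f := fun g : G => (⟨g, hcon g⟩ : Subgroup.closure S)) ?_
        intro a b hab
        exact congrArg Subtype.val hab
      rw [← Cardinal.mk_le_aleph0_iff, hG] at h2
      exact absurd h2 (not_le.2 Cardinal.aleph0_lt_aleph_one)
    exact Pool.Agent.Helper34_Synd.hasSyndeticSubmeasure_of_good
      (good_of_covMeager hSc hS2 n hn hcov)

end Pool.Agent.Helper83Card
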